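import Pool.Agent.Y993.HP.Stm

/-!
Project HP, parts EXI and POS (by helper794).
-/

set_option autoImplicit false

namespace Pool.Agent.Y794.HP

open Finset Pool.Agent.Y993.HP

/-- There are high-dimensional permutations. -/
theorem exi : S_EXI := by
  intro k n _ hn
  obtain ⟨m, rfl⟩ : ∃ m, n = m + 1 := ⟨n - 1, by omega⟩
  refine ⟨Finset.univ.filter (fun p : Pt (k + 1) (m + 1) => ∑ i, p i = 0), fun i α => ?_⟩
  have key : ∀ x : Fin (m + 1), ∑ j, Function.update α i x j =
      x + ∑ j ∈ Finset.univ \ {i}, α j := fun x =>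
    Finset.sum_update_of_mem (Finset.mem_univ i) α x
  refine ⟨-∑ j ∈ Finset.univ \ {i}, α j, ?_, fun y hy => ?_⟩
  · show Function.update α i _ ∈ _
    rw [Finset.mem_filter, key]
    exact ⟨Finset.mem_univ _, neg_add_cancel _⟩
  · have h1 : Function.update α i y ∈ Finset.univ.filter
      (fun p : Pt (k + 1) (m + 1) => ∑ i, p i = 0) := hy
    rw [Finset.mem_filter, key] at h1
    exact eq_neg_of_add_eq_zero_left h1.2

theorem le_lg {d n N : ℕ} (u : Lab d n N) {X C : Finset (Pt d n)} (h1 : C ⊆ X)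
    (h2 : IsCh u C) : C.card ≤ lg u X := by
  classical
  unfold lg
  exact Finset.le_sup (f := Finset.card) (Finset.mem_filter.2 ⟨Finset.mem_powerset.2 h1, h2⟩)

theorem lg_le_card {d n N : ℕ} (u : Lab d n N) (X : Finset (Pt d n)) : lg u X ≤ X.card := by
  classical
  unfold lg
  exact Finset.sup_le fun C hC =>
    Finset.card_le_card (Finset.mem_powerset.1 (Finset.mem_filter.1 hC).1)

theorem eL_zero (d : ℕ) : eL d 1 0 = 0 := by
  have h : ∀ s : Fin d → Equiv.Perm (Fin 0), ((min (lg (fun x : Fin d × Fin 0 => s x.1 x.2)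
      (Finset.univ.image (fun a : Fin 0 => (fun _ : Fin d => a)))) 1 : ℕ) : ℝ) = 0 := by
    intro s
    have h1 : lg (fun x : Fin d × Fin 0 => s x.1 x.2)
        (Finset.univ.image (fun a : Fin 0 => (fun _ : Fin d => a))) = 0 := by
      rw [← Nat.le_zero]
      refine (lg_le_card _ _).trans (Finset.card_image_le.trans ?_)
      simp
    rw [h1]
    simp
  unfold eL Ex
  rw [Finset.sum_congr rfl fun s _ => h s, Finset.sum_const_zero, zero_div]

theorem eL_pos (d r : ℕ) (hr : 1 ≤ r) : eL d 1 r = 1 := by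
  have h : ∀ s : Fin d → Equiv.Perm (Fin r), ((min (lg (fun x : Fin d × Fin r => s x.1 x.2)
      (Finset.univ.image (fun a : Fin r => (fun _ : Fin d => a)))) 1 : ℕ) : ℝ) = 1 := by
    intro s
    have h1 : 1 ≤ lg (fun x : Fin d × Fin r => s x.1 x.2)
        (Finset.univ.image (fun a : Fin r => (fun _ : Fin d => a))) := by
      have h2 := le_lg (fun x : Fin d × Fin r => s x.1 x.2)
        (X := Finset.univ.image (fun a : Fin r => (fun _ : Fin d => a)))
        (C := {fun _ : Fin d => (⟨0, hr⟩ : Fin r)}) (by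
          rw [Finset.singleton_subset_iff, Finset.mem_image]
          exact ⟨⟨0, hr⟩, Finset.mem_univ _, rfl⟩) (by
          intro p hp q hq hpq
          rw [Finset.mem_singleton] at hp hq
          exact absurd (hp.trans hq.symm) hpq)
      rwa [Finset.card_singleton] at h2
    rw [min_eq_right h1]
    simp
  have hc : (Fintype.card (Fin d → Equiv.Perm (Fin r)) : ℝ) ≠ 0 := by
    exact_mod_cast Fintype.card_ne_zero
  unfold eL Ex
  rw [Finset.sum_congr rfl fun s _ => h s, Finset.sum_const, nsmul_eq_mul, mul_one,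
    Finset.card_univ, div_self hc]

theorem nd_one (d j : ℕ) : nd (eL d 1) j = (if j = 0 then 1 else 0) - (-1) ^ j := by
  unfold nd
  have h1 : ∑ i ∈ range (j + 1), (-1 : ℝ) ^ (j - i) * (j.choose i : ℝ) * eL d 1 i =
      ∑ i ∈ range (j + 1), (-1 : ℝ) ^ (j - i) * (j.choose i : ℝ) - (-1) ^ j := by
    rw [Finset.sum_range_succ', Finset.sum_range_succ', eL_zero]
    have h2 : ∀ i ∈ range j, (-1 : ℝ) ^ (j - (i + 1)) * (j.choose (i + 1) : ℝ) * eL d 1 (i + 1) =
        (-1 : ℝ) ^ (j - (i + 1)) * (j.choose (i + 1) : ℝ) := by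
      intro i _
      rw [eL_pos d (i + 1) (by omega), mul_one]
    rw [Finset.sum_congr rfl h2]
    simp
  have h3 : ∑ i ∈ range (j + 1), (-1 : ℝ) ^ (j - i) * (j.choose i : ℝ) = (1 + (-1)) ^ j := by
    rw [add_pow]
    refine Finset.sum_congr rfl fun i _ => ?_
    rw [one_pow, one_mul]
  rw [h1, h3]
  congr 1
  by_cases hj : j = 0
  · rw [hj, if_pos rfl, pow_zero]
  · rw [if_neg hj, add_neg_cancel, zero_pow hj]

/-- The local limit is positive for `L = 1`. -/
theorem pos : S_POS := by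
  intro d κ _ hκ
  have h1 : HasSum (fun j : ℕ => (-κ) ^ j / (j.factorial : ℝ)) (Real.exp (-κ)) := by
    rw [Real.exp_eq_exp_ℝ]
    exact NormedSpace.expSeries_div_hasSum_exp (-κ)
  have h2 : HasSum (fun j : ℕ => if j = 0 then (1 : ℝ) else 0) 1 := hasSum_ite_eq 0 1
  have h3 := h2.sub h1
  have h4 : (fun j : ℕ => (if j = 0 then (1 : ℝ) else 0) - (-κ) ^ j / (j.factorial : ℝ)) =
      fun j : ℕ => κ ^ j / (j.factorial : ℝ) * nd (eL d 1) j := by
    funext j
    rw [nd_one, mul_sub]
    congr 1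
    · by_cases hj : j = 0
      · rw [hj]
        simp
      · rw [if_neg hj, mul_zero]
    · rw [neg_pow]
      ring
  rw [h4] at h3
  have h5 : gL d 1 κ = 1 - Real.exp (-κ) := h3.tsum_eq
  rw [h5, sub_pos, Real.exp_lt_one_iff]
  linarith

end Pool.Agent.Y794.HP
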